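import Mathlib

set_option autoImplicit false

namespace Pool.Agent.H944Z.UC

open Set

/-- countably many binary functions and one binary relation -/
structure Str (Ω : Type) where
  f : ℕ → Ω → Ω → Ω
  r : Ω → Ω → Prop

variable {Ω Ω' Ω'' : Type}

def Cl (S : Str Ω) (X : Set Ω) : Prop := ∀ n, ∀ x ∈ X, ∀ y ∈ X, S.f n x y ∈ X

structure Emb (S : Str Ω) (X : Set Ω) (T : Str Ω') (e : Ω → Ω') : Prop where
  inj : InjOn e X
  mapf : ∀ n, ∀ x ∈ X, ∀ y ∈ X, e (S.f n x y) = T.f n (e x) (e y)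
  mapr : ∀ x ∈ X, ∀ y ∈ X, S.r x y ↔ T.r (e x) (e y)

theorem Emb.mono {S : Str Ω} {X Y : Set Ω} {T : Str Ω'} {e : Ω → Ω'} (h : Emb S X T e)
    (hY : Y ⊆ X) : Emb S Y T e :=
  ⟨h.inj.mono hY, fun n x hx y hy => h.mapf n x (hY hx) y (hY hy),
    fun x hx y hy => h.mapr x (hY hx) y (hY hy)⟩

theorem Emb.comp {S : Str Ω} {X : Set Ω} {T : Str Ω'} {e : Ω → Ω'} {Y : Set Ω'} {R : Str Ω''}
    {g : Ω' → Ω''} (h : Emb S X T e) (hg : Emb T Y R g) (hm : MapsTo e X Y) :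
    Emb S X R (g ∘ e) :=
  ⟨hg.inj.comp h.inj hm, fun n x hx y hy => by
      simp only [Function.comp, h.mapf n x hx y hy, hg.mapf n _ (hm hx) _ (hm hy)],
    fun x hx y hy => (h.mapr x hx y hy).trans (hg.mapr _ (hm hx) _ (hm hy))⟩

theorem Emb.congr {S : Str Ω} {X : Set Ω} {T : Str Ω'} {e e' : Ω → Ω'} (h : Emb S X T e)
    (hX : Cl S X) (he : EqOn e e' X) : Emb S X T e' :=
  ⟨h.inj.congr he, fun n x hx y hy => by
      rw [← he hx, ← he hy, ← he (hX n x hx y hy), h.mapf n x hx y hy],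
    fun x hx y hy => by rw [← he hx, ← he hy]; exact h.mapr x hx y hy⟩

theorem Emb.cl_image {S : Str Ω} {X : Set Ω} {T : Str Ω'} {e : Ω → Ω'} (h : Emb S X T e)
    (hX : Cl S X) : Cl T (e '' X) := by
  rintro n _ ⟨x, hx, rfl⟩ _ ⟨y, hy, rfl⟩
  exact ⟨_, hX n x hx y hy, h.mapf n x hx y hy⟩

theorem Emb.inv {S : Str Ω} {X : Set Ω} {T : Str Ω'} {e : Ω → Ω'} (h : Emb S X T e)
    (hX : Cl S X) {g : Ω' → Ω} (hg : ∀ x ∈ X, g (e x) = x) : Emb T (e '' X) S g := by
  refine ⟨?_, ?_, ?_⟩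
  · rintro _ ⟨x, hx, rfl⟩ _ ⟨y, hy, rfl⟩ hxy
    rw [hg x hx, hg y hy] at hxy
    rw [hxy]
  · rintro n _ ⟨x, hx, rfl⟩ _ ⟨y, hy, rfl⟩
    rw [← h.mapf n x hx y hy, hg _ (hX n x hx y hy), hg x hx, hg y hy]
  · rintro _ ⟨x, hx, rfl⟩ _ ⟨y, hy, rfl⟩
    rw [hg x hx, hg y hy]
    exact (h.mapr x hx y hy).symm

theorem Cl.inter {S : Str Ω} {X Y : Set Ω} (hX : Cl S X) (hY : Cl S Y) : Cl S (X ∩ Y) :=
  fun n x hx y hy => ⟨hX n x hx.1 y hy.1, hY n x hx.2 y hy.2⟩

/-- coded structures on `Fin k` -/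
abbrev FStr (k : ℕ) : Type := (Fin k → Fin k → Fin k → Fin k) × (Fin k → Fin k → Prop)

def FStr.toStr {k : ℕ} (T : FStr k) : Str (Fin k) :=
  ⟨fun n x y => if h : n < k then T.1 ⟨n, h⟩ x y else x, T.2⟩

def LocP (P : ∀ k, FStr k → Prop) (S : Str Ω) (C : Finset Ω) : Prop :=
  (∀ n, C.card ≤ n → ∀ x ∈ C, ∀ y ∈ C, S.f n x y = x) ∧
  ∀ C₁ : Finset Ω, C₁ ⊂ C → Cl S C₁ → ∀ k, k < C₁.card → ∀ T : FStr k, P k T →
    ∀ Z : Set (Fin k), Cl T.toStr Z → ∀ a : Fin k → Ω, Emb T.toStr Z S a → MapsTo a Z C₁ →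
      ∃ g : Fin k → Ω, Emb T.toStr univ S g ∧ (∀ i, g i ∈ C) ∧ EqOn g a Z

open Classical in
def GoodF (k : ℕ) (T : FStr k) : Prop :=
  ∀ C : Finset (Fin k), Cl T.toStr C →
    LocP (fun j T' => if _h : j < k then GoodF j T' else True) T.toStr C
termination_by k

def Loc (S : Str Ω) (C : Finset Ω) : Prop := LocP GoodF S C

structure KOn (S : Str Ω) (U : Set Ω) : Prop where
  cl : Cl S U
  lf : ∀ s : Finset Ω, ↑s ⊆ U → ∃ C : Finset Ω, s ⊆ C ∧ ↑C ⊆ U ∧ Cl S C
  loc : ∀ C : Finset Ω, ↑C ⊆ U → Cl S C → Loc S C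

theorem goodF_iff {k : ℕ} (T : FStr k) : GoodF k T ↔ KOn T.toStr univ := by
  have key : ∀ C : Finset (Fin k),
      LocP (fun j T' => if _h : j < k then GoodF j T' else True) T.toStr C ↔ Loc T.toStr C := by
    intro C
    refine and_congr Iff.rfl (forall_congr' fun C₁ => forall_congr' fun _ => forall_congr' fun _ =>
      forall_congr' fun j => forall_congr' fun hj => forall_congr' fun T' => ?_)
    have : j < k := lt_of_lt_of_le hj (by simpa using Finset.card_le_univ C₁)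
    simp only [dif_pos this]
  rw [GoodF]
  constructor
  · intro h
    exact ⟨fun _ _ _ _ _ => trivial, fun s _ => ⟨Finset.univ, Finset.subset_univ _, subset_univ _,
      fun _ _ _ _ _ => by simp⟩, fun C _ hC => (key C).mp (h C hC)⟩
  · intro h C hC
    exact (key C).mpr (h.loc C (subset_univ _) hC)

theorem Loc.pullback [DecidableEq Ω'] {S : Str Ω} {C : Finset Ω} {T : Str Ω'} {e : Ω → Ω'}
    (h : Emb S C T e) (hC : Cl S C) (hL : Loc T (C.image e)) : Loc S C := by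
  classical
  have hcard : ∀ D : Finset Ω, D ⊆ C → (D.image e).card = D.card := fun D hD =>
    Finset.card_image_of_injOn (h.inj.mono (by exact_mod_cast hD))
  refine ⟨fun n hn x hx y hy => ?_, fun C₁ hC₁ hcl k hk T₀ hT₀ Z hZ a ha hm => ?_⟩
  · apply h.inj (hC n x hx y hy) hx
    rw [h.mapf n x hx y hy]
    exact hL.1 n (by rw [hcard C (subset_refl _)]; exact hn) _ (Finset.mem_image_of_mem e hx) _
      (Finset.mem_image_of_mem e hy)
  · have hsub : (C₁ : Set Ω) ⊆ C := by exact_mod_cast hC₁.subset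
    have hss : C₁.image e ⊂ C.image e := by
      refine Finset.ssubset_iff_subset_ne.mpr ⟨Finset.image_subset_image hC₁.subset, fun he => ?_⟩
      have := congrArg Finset.card he
      rw [hcard C₁ hC₁.subset, hcard C (subset_refl _)] at this
      exact (Finset.card_lt_card hC₁).ne this
    obtain ⟨g, hg1, hg2, hg3⟩ := hL.2 (C₁.image e) hss
      (by rw [Finset.coe_image]; exact (h.mono hsub).cl_image hcl) k
      (by rw [hcard C₁ hC₁.subset]; exact hk) T₀ hT₀ Z hZ (e ∘ a)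
      (ha.comp h (fun z hz => hsub (hm hz)))
      (fun z hz => by rw [Finset.coe_image]; exact mem_image_of_mem e (hm hz))
    have hne : Nonempty Ω := by
      obtain ⟨x, _⟩ := Finset.card_pos.mp (lt_of_le_of_lt (Nat.zero_le k) hk)
      exact ⟨x⟩
    have hinv : ∀ x ∈ (C : Set Ω), Function.invFunOn e C (e x) = x := fun x hx =>
      h.inj.leftInvOn_invFunOn hx
    have hg2' : ∀ i, g i ∈ e '' (C : Set Ω) := fun i => by
      have := hg2 i
      rwa [← Finset.mem_coe, Finset.coe_image] at this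
    refine ⟨Function.invFunOn e C ∘ g, hg1.comp (h.inv hC hinv) (fun i _ => hg2' i), fun i => ?_,
      fun z hz => ?_⟩
    · obtain ⟨x, hx, hxe⟩ := hg2' i
      simp only [Function.comp, ← hxe, hinv x hx]
      exact hx
    · simp only [Function.comp, hg3 hz]
      exact hinv _ (hsub (hm hz))

theorem KOn.pullback {S : Str Ω} {X : Set Ω} {T : Str Ω'} {Y : Set Ω'} {e : Ω → Ω'}
    (hT : KOn T Y) (h : Emb S X T e) (hX : Cl S X) (hm : MapsTo e X Y) : KOn S X := by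
  classical
  refine ⟨hX, fun s hs => ?_, fun C hC hcl => ?_⟩
  · obtain ⟨C, h1, -, h3⟩ := hT.lf (s.image e) (by
      rw [Finset.coe_image]; exact image_subset_iff.mpr fun x hx => hm (hs hx))
    have hfin : (X ∩ e ⁻¹' C).Finite :=
      Set.Finite.of_finite_image (C.finite_toSet.subset (image_subset_iff.mpr fun x hx => hx.2))
        (h.inj.mono inter_subset_left)
    refine ⟨hfin.toFinset, fun x hx => ?_, ?_, ?_⟩
    · rw [Set.Finite.mem_toFinset]
      exact ⟨hs hx, h1 (Finset.mem_image_of_mem e hx)⟩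
    · rw [Set.Finite.coe_toFinset]; exact inter_subset_left
    · rw [Set.Finite.coe_toFinset]
      intro n x hx y hy
      refine ⟨hX n x hx.1 y hy.1, ?_⟩
      rw [mem_preimage, h.mapf n x hx.1 y hy.1]
      exact h3 n _ hx.2 _ hy.2
  · refine Loc.pullback (h.mono hC) hcl (hT.loc _ ?_ ?_)
    · rw [Finset.coe_image]; exact image_subset_iff.mpr fun x hx => hm (hC hx)
    · rw [Finset.coe_image]; exact (h.mono hC).cl_image hcl

/-- two structures agree on a set -/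
def Agree (S S' : Str Ω) (U : Set Ω) : Prop :=
  ∀ x ∈ U, ∀ y ∈ U, (∀ n, S.f n x y = S'.f n x y) ∧ (S.r x y ↔ S'.r x y)

theorem Agree.refl (S : Str Ω) (U : Set Ω) : Agree S S U := fun _ _ _ _ => ⟨fun _ => rfl, Iff.rfl⟩

theorem Agree.symm {S S' : Str Ω} {U : Set Ω} (h : Agree S S' U) : Agree S' S U :=
  fun x hx y hy => ⟨fun n => ((h x hx y hy).1 n).symm, (h x hx y hy).2.symm⟩

theorem Agree.mono {S S' : Str Ω} {U V : Set Ω} (h : Agree S S' U) (hV : V ⊆ U) : Agree S S' V :=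
  fun x hx y hy => h x (hV hx) y (hV hy)

theorem Agree.trans {S S' S'' : Str Ω} {U : Set Ω} (h : Agree S S' U) (h' : Agree S' S'' U) :
    Agree S S'' U :=
  fun x hx y hy => ⟨fun n => ((h x hx y hy).1 n).trans ((h' x hx y hy).1 n),
    (h x hx y hy).2.trans (h' x hx y hy).2⟩

theorem Agree.emb {S S' : Str Ω} {U : Set Ω} (h : Agree S S' U) : Emb S U S' id :=
  ⟨injOn_id U, fun n x hx y hy => (h x hx y hy).1 n, fun x hx y hy => (h x hx y hy).2⟩

theorem Agree.cl {S S' : Str Ω} {U : Set Ω} (h : Agree S S' U) (hU : Cl S U) : Cl S' U :=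
  fun n x hx y hy => by rw [← (h x hx y hy).1 n]; exact hU n x hx y hy

theorem KOn.agree {S S' : Str Ω} {U : Set Ω} (hK : KOn S U) (h : Agree S S' U) : KOn S' U :=
  hK.pullback h.symm.emb (h.cl hK.cl) (mapsTo_id U)

theorem KOn.mono {S : Str Ω} {U V : Set Ω} (hK : KOn S U) (hV : V ⊆ U) (hcl : Cl S V) :
    KOn S V :=
  hK.pullback (Agree.refl S V).emb hcl hV

theorem Emb.agree {S : Str Ω} {X : Set Ω} {T T' : Str Ω'} {e : Ω → Ω'} {Y : Set Ω'}
    (h : Emb S X T e) (hm : MapsTo e X Y) (ha : Agree T T' Y) : Emb S X T' e :=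
  h.comp ha.emb hm

/-- unions of directed systems -/
theorem limit {ι : Type} [Nonempty ι] (U : ι → Set Ω) (S : ι → Str Ω)
    (hdir : ∀ i j, ∃ k, (U i ⊆ U k ∧ Agree (S i) (S k) (U i)) ∧ (U j ⊆ U k ∧ Agree (S j) (S k) (U j)))
    (hK : ∀ i, KOn (S i) (U i)) :
    ∃ T : Str Ω, (∀ i, Agree (S i) T (U i)) ∧ KOn T (⋃ i, U i) := by
  classical
  let c : Ω → Ω → ι := fun x y =>
    if h : ∃ i, x ∈ U i ∧ y ∈ U i then h.choose else Classical.arbitrary ι
  have hc : ∀ i, ∀ x ∈ U i, ∀ y ∈ U i, x ∈ U (c x y) ∧ y ∈ U (c x y) := by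
    intro i x hx y hy
    have h : ∃ i, x ∈ U i ∧ y ∈ U i := ⟨i, hx, hy⟩
    simp only [c, dif_pos h]
    exact h.choose_spec
  let T : Str Ω := ⟨fun n x y => (S (c x y)).f n x y, fun x y => (S (c x y)).r x y⟩
  have hT : ∀ i, Agree (S i) T (U i) := by
    intro i x hx y hy
    obtain ⟨h1, h2⟩ := hc i x hx y hy
    obtain ⟨k, ⟨-, a1⟩, ⟨-, a2⟩⟩ := hdir i (c x y)
    exact ⟨fun n => ((a1 x hx y hy).1 n).trans ((a2 x h1 y h2).1 n).symm,
      (a1 x hx y hy).2.trans (a2 x h1 y h2).2.symm⟩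
  have hfin : ∀ s : Finset Ω, ↑s ⊆ (⋃ i, U i) → ∃ i, ↑s ⊆ U i := by
    intro s
    induction s using Finset.induction_on with
    | empty => intro _; exact ⟨Classical.arbitrary ι, by simp⟩
    | insert a s _ ih =>
      intro hs
      rw [Finset.coe_insert, insert_subset_iff] at hs
      obtain ⟨i, hi⟩ := ih hs.2
      obtain ⟨j, hj⟩ := mem_iUnion.mp hs.1
      obtain ⟨k, ⟨h1, -⟩, ⟨h2, -⟩⟩ := hdir i j
      exact ⟨k, by rw [Finset.coe_insert, insert_subset_iff]; exact ⟨h2 hj, hi.trans h1⟩⟩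
  have hK' : ∀ i, KOn T (U i) := fun i => (hK i).agree (hT i)
  refine ⟨T, hT, fun n x hx y hy => ?_, fun s hs => ?_, fun C hC hcl => ?_⟩
  · obtain ⟨i, hi⟩ := hfin {x, y} (by
      rw [Finset.coe_insert, Finset.coe_singleton, insert_subset_iff, singleton_subset_iff]
      exact ⟨hx, hy⟩)
    exact mem_iUnion.mpr ⟨i, (hK' i).cl n x (hi (by simp)) y (hi (by simp))⟩
  · obtain ⟨i, hi⟩ := hfin s hs
    obtain ⟨C, h1, h2, h3⟩ := (hK' i).lf s hi
    exact ⟨C, h1, h2.trans (subset_iUnion U i), h3⟩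
  · obtain ⟨i, hi⟩ := hfin C hC
    exact (hK' i).loc C hi hcl

/-- every infinite member of the class is rich -/
theorem rich {S : Str Ω} [Infinite Ω] (hS : KOn S univ) {S' : Str Ω'} {B : Finset Ω'}
    (hB : KOn S' B) {A : Set Ω'} (hAB : A ⊆ B) (hA : Cl S' A) {a : Ω' → Ω} (ha : Emb S' A S a) :
    ∃ g : Ω' → Ω, Emb S' B S g ∧ EqOn g a A := by
  classical
  let k := B.card
  let φ : B ≃ Fin k := B.equivFin
  let ψ : Fin k → Ω' := fun i => (φ.symm i : Ω')
  have hψ : ∀ i, ψ i ∈ B := fun i => (φ.symm i).2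
  let T : FStr k := (fun n i j => φ ⟨S'.f n (ψ i) (ψ j), hB.cl n _ (hψ i) _ (hψ j)⟩,
    fun i j => S'.r (ψ i) (ψ j))
  have hψe : Emb T.toStr univ S' ψ := by
    refine ⟨fun i _ j _ h => φ.symm.injective (Subtype.ext h), fun n i _ j _ => ?_,
      fun i _ j _ => Iff.rfl⟩
    by_cases hn : n < k
    · simp only [FStr.toStr, dif_pos hn, T, ψ, Equiv.symm_apply_apply]
    · simp only [FStr.toStr, dif_neg hn]
      exact ((hB.loc B (subset_refl _) hB.cl).1 n (not_lt.mp hn) _ (hψ i) _ (hψ j)).symm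
  have hT : GoodF k T := (goodF_iff T).mpr
    (hB.pullback hψe (fun _ _ _ _ _ => trivial) (fun i _ => hψ i))
  have hZ : Cl T.toStr (ψ ⁻¹' A) := by
    intro n i hi j hj
    rw [mem_preimage, hψe.mapf n i trivial j trivial]
    exact hA n _ hi _ hj
  obtain ⟨s, hs1, hs2⟩ := Infinite.exists_superset_card_eq (Finset.univ.image (a ∘ ψ))
    (k + 1) (le_trans Finset.card_image_le (by simp))
  obtain ⟨C₁, h1, -, h1c⟩ := hS.lf s (subset_univ _)
  obtain ⟨p, hp⟩ := Infinite.exists_notMem_finset C₁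
  obtain ⟨C, h2, -, h2c⟩ := hS.lf (insert p C₁) (subset_univ _)
  obtain ⟨g, hg1, -, hg3⟩ := (hS.loc C (subset_univ _) h2c).2 C₁
    (lt_of_lt_of_le (Finset.ssubset_insert hp) h2) h1c k
    (by have := Finset.card_le_card h1; omega) T hT (ψ ⁻¹' A) hZ (a ∘ ψ)
    ((hψe.mono (subset_univ _)).comp ha (fun i hi => hi))
    (fun i _ => h1 (hs1 (Finset.mem_image_of_mem _ (Finset.mem_univ i))))
  have hφψ : ∀ (x : Ω') (hx : x ∈ B), ψ (φ ⟨x, hx⟩) = x := fun x hx => by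
    simp only [ψ, Equiv.symm_apply_apply]
  refine ⟨fun x => if h : x ∈ B then g (φ ⟨x, h⟩) else a x, ⟨?_, ?_, ?_⟩, ?_⟩
  · intro x hx y hy hxy
    simp only [Finset.mem_coe] at hx hy
    simp only [dif_pos hx, dif_pos hy] at hxy
    have := φ.injective (hg1.inj trivial trivial hxy)
    exact congrArg Subtype.val this
  · intro n x hx y hy
    have hxy := hB.cl n x hx y hy
    simp only [Finset.mem_coe] at hx hy hxy
    simp only [dif_pos hx, dif_pos hy, dif_pos hxy]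
    rw [← hg1.mapf n _ trivial _ trivial]
    congr 1
    apply hψe.inj trivial trivial
    rw [hψe.mapf n _ trivial _ trivial, hφψ, hφψ, hφψ]
  · intro x hx y hy
    simp only [Finset.mem_coe] at hx hy
    simp only [dif_pos hx, dif_pos hy]
    rw [← hg1.mapr _ trivial _ trivial, hψe.mapr _ trivial _ trivial, hφψ, hφψ]
  · intro x hx
    have hx' : x ∈ B := hAB hx
    simp only [dif_pos hx']
    rw [hg3 (show φ ⟨x, hx'⟩ ∈ ψ ⁻¹' A by rw [mem_preimage, hφψ]; exact hx)]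
    simp only [Function.comp, hφψ]

end Pool.Agent.H944Z.UC
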