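import Mathlib
import Pool.Agent.H944Z.UC.Basic

set_option autoImplicit false

namespace Pool.Agent.H944Z.UC

open Set

variable {Ω Ω' : Type}

theorem KOn.push {S : Str Ω} {X : Set Ω} {T : Str Ω'} {e : Ω → Ω'} (hS : KOn S X)
    (h : Emb S X T e) : KOn T (e '' X) := by
  rcases X.eq_empty_or_nonempty with rfl | ⟨x, hx⟩
  · rw [image_empty]
    refine ⟨fun _ _ h => h.elim, fun s hs => ⟨∅, ?_, by simp, fun _ _ h => by simp at h⟩,
      fun C hC _ => ?_⟩
    · intro y hy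
      exact (hs hy).elim
    · have : C = ∅ := by simpa using hC
      subst this
      exact ⟨fun _ _ _ h => by simp at h, fun C₁ h => absurd h (Finset.not_ssubset_empty _)⟩
  · have : Nonempty Ω := ⟨x⟩
    have hinv : ∀ x ∈ X, Function.invFunOn e X (e x) = x := fun x hx =>
      h.inj.leftInvOn_invFunOn hx
    refine hS.pullback (h.inv hS.cl hinv) (h.cl_image hS.cl) ?_
    rintro _ ⟨y, hy, rfl⟩
    rw [hinv y hy]
    exact hy

/-- agreement at one pair -/
def AgP (S S' : Str Ω) (x y : Ω) : Prop :=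
  (∀ n, S.f n x y = S'.f n x y) ∧ (S.r x y ↔ S'.r x y)

theorem AgP.trans {S S' S'' : Str Ω} {x y : Ω} (h : AgP S S' x y) (h' : AgP S' S'' x y) :
    AgP S S'' x y := ⟨fun n => (h.1 n).trans (h'.1 n), h.2.trans h'.2⟩

/-- a conformal family of good pieces -/
structure PS (S : Str Ω) (D : Finset Ω) (Q : Finset (Finset Ω)) : Prop where
  sub : ∀ P ∈ Q, P ⊆ D
  good : ∀ P ∈ Q, KOn S P
  conf : ∀ X : Set Ω, X ⊆ D → (∀ x ∈ X, ∀ y ∈ X, ∃ P ∈ Q, x ∈ P ∧ y ∈ P) → ∃ P ∈ Q, X ⊆ P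

structure Ext (N : Set Ω) (S : Str Ω) (D : Finset Ω) (Q : Finset (Finset Ω))
    (S' : Str Ω) (D' : Finset Ω) (Q' : Finset (Finset Ω)) : Prop where
  sub : D ⊆ D'
  new : (D' : Set Ω) ⊆ D ∪ N
  subQ : Q ⊆ Q'
  ag : ∀ x y, (¬ (x ∈ D' ∧ y ∈ D') ∨ (x ∈ D ∧ y ∈ D)) → AgP S S' x y

theorem Ext.refl (N : Set Ω) (S : Str Ω) (D : Finset Ω) (Q : Finset (Finset Ω)) :
    Ext N S D Q S D Q :=
  ⟨subset_refl _, subset_union_left, subset_refl _, fun _ _ _ => ⟨fun _ => rfl, Iff.rfl⟩⟩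

theorem Ext.trans {N : Set Ω} {S S' S'' : Str Ω} {D D' D'' : Finset Ω}
    {Q Q' Q'' : Finset (Finset Ω)} (h : Ext N S D Q S' D' Q') (h' : Ext N S' D' Q' S'' D'' Q'') :
    Ext N S D Q S'' D'' Q'' := by
  refine ⟨h.sub.trans h'.sub, h'.new.trans (union_subset h.new subset_union_right),
    h.subQ.trans h'.subQ, fun x y hxy => ?_⟩
  rcases hxy with hxy | hxy
  · exact (h.ag x y (Or.inl fun hh => hxy ⟨h'.sub hh.1, h'.sub hh.2⟩)).trans
      (h'.ag x y (Or.inl hxy))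
  · exact (h.ag x y (Or.inr hxy)).trans (h'.ag x y (Or.inr ⟨h.sub hxy.1, h.sub hxy.2⟩))

theorem Ext.agree {N : Set Ω} {S S' : Str Ω} {D D' : Finset Ω}
    {Q Q' : Finset (Finset Ω)} (h : Ext N S D Q S' D' Q') : Agree S S' D :=
  fun x hx y hy => h.ag x y (Or.inr ⟨hx, hy⟩)

structure Val (S : Str Ω) (P : Finset Ω) {k : ℕ} (T : FStr k) (Z : Set (Fin k))
    (a : Fin k → Ω) : Prop where
  good : GoodF k T
  cl : Cl T.toStr Z
  emb : Emb T.toStr Z S a
  maps : MapsTo a Z P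

theorem Val.agree {S S' : Str Ω} {P : Finset Ω} {k : ℕ} {T : FStr k} {Z : Set (Fin k)}
    {a : Fin k → Ω} (h : Val S P T Z a) (ha : Agree S S' P) : Val S' P T Z a :=
  ⟨h.good, h.cl, h.emb.agree h.maps ha, h.maps⟩

def Wit (S : Str Ω) (Q : Finset (Finset Ω)) {k : ℕ} (T : FStr k) (Z : Set (Fin k))
    (a : Fin k → Ω) : Prop :=
  ∃ g : Fin k → Ω, Emb T.toStr univ S g ∧ (∃ P ∈ Q, ∀ i, g i ∈ P) ∧ EqOn g a Z

theorem Wit.ext {N : Set Ω} {S S' : Str Ω} {D D' : Finset Ω} {Q Q' : Finset (Finset Ω)}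
    {k : ℕ} {T : FStr k} {Z : Set (Fin k)} {a : Fin k → Ω} (hw : Wit S Q T Z a) (hP : PS S D Q)
    (h : Ext N S D Q S' D' Q') : Wit S' Q' T Z a := by
  obtain ⟨g, h1, ⟨P, hPQ, h2⟩, h3⟩ := hw
  exact ⟨g, h1.agree (Y := D) (fun i _ => hP.sub P hPQ (h2 i)) h.agree, ⟨P, h.subQ hPQ, h2⟩, h3⟩

theorem add_piece [DecidableEq Ω] {N : Set Ω} (hN : N.Infinite) {S : Str Ω} {D : Finset Ω}
    {Q : Finset (Finset Ω)} (hP : PS S D Q) {P : Finset Ω} (hPQ : P ∈ Q) {k : ℕ} {T : FStr k}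
    {Z : Set (Fin k)} {a : Fin k → Ω} (hv : Val S P T Z a) :
    ∃ (S' : Str Ω) (D' B : Finset Ω), Ext N S D Q S' D' (insert B Q) ∧ PS S' D' (insert B Q) ∧
      B.card = k ∧ Wit S' (insert B Q) T Z a := by
  classical
  have hND : (N \ D).Infinite := hN.sdiff D.finite_toSet
  let ν : Fin k → Ω := fun i => (hND.natEmbedding _ i : Ω)
  have hν : ∀ i, ν i ∈ N \ D := fun i => (hND.natEmbedding _ i).2
  have hνi : Function.Injective ν := fun i j h =>
    Fin.ext ((hND.natEmbedding _).injective (Subtype.ext h))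
  let g : Fin k → Ω := fun i => if i ∈ Z then a i else ν i
  have hgZ : ∀ i ∈ Z, g i = a i := fun i hi => by simp only [g, if_pos hi]
  have hgN : ∀ i, i ∉ Z → g i = ν i := fun i hi => by simp only [g, if_neg hi]
  have haD : ∀ i ∈ Z, a i ∈ D := fun i hi => hP.sub P hPQ (hv.maps hi)
  have hgD : ∀ i, g i ∈ D → i ∈ Z := fun i hi => by
    by_contra h
    rw [hgN i h] at hi
    exact (hν i).2 hi
  have hg : Function.Injective g := by
    intro i j h
    by_cases hi : i ∈ Z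
    · have hj : j ∈ Z := hgD j (by rw [← h, hgZ i hi]; exact haD i hi)
      rw [hgZ i hi, hgZ j hj] at h
      exact hv.emb.inj hi hj h
    · have hj : j ∉ Z := fun hj => hi (hgD i (by rw [h, hgZ j hj]; exact haD j hj))
      rw [hgN i hi, hgN j hj] at h
      exact hνi h
  let S' : Str Ω :=
    ⟨fun n x y => if h : x ∈ range g ∧ y ∈ range g then g (T.toStr.f n h.1.choose h.2.choose)
        else S.f n x y,
      fun x y => if h : x ∈ range g ∧ y ∈ range g then T.toStr.r h.1.choose h.2.choose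
        else S.r x y⟩
  have hch : ∀ (i : Fin k) (h : g i ∈ range g), h.choose = i := fun i h => hg h.choose_spec
  have hf : ∀ n i j, S'.f n (g i) (g j) = g (T.toStr.f n i j) := by
    intro n i j
    have h : g i ∈ range g ∧ g j ∈ range g := ⟨mem_range_self i, mem_range_self j⟩
    simp only [S', dif_pos h, hch]
  have hr : ∀ i j, S'.r (g i) (g j) ↔ T.toStr.r i j := by
    intro i j
    have h : g i ∈ range g ∧ g j ∈ range g := ⟨mem_range_self i, mem_range_self j⟩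
    simp only [S', dif_pos h, hch]
  have hemb : Emb T.toStr univ S' g :=
    ⟨hg.injOn, fun n i _ j _ => (hf n i j).symm, fun i _ j _ => (hr i j).symm⟩
  have hout : ∀ x y, ¬ (x ∈ range g ∧ y ∈ range g) → AgP S S' x y := by
    intro x y h
    exact ⟨fun n => by simp only [S', dif_neg h], by simp only [S', dif_neg h]⟩
  let B : Finset Ω := Finset.univ.image g
  have hB : ∀ x, x ∈ B ↔ x ∈ range g := fun x => by simp [B]
  have hext : Ext N S D Q S' (D ∪ B) (insert B Q) := by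
    refine ⟨Finset.subset_union_left, ?_, Finset.subset_insert _ _, fun x y hxy => ?_⟩
    · intro x hx
      rcases Finset.mem_union.mp hx with hx | hx
      · exact Or.inl hx
      · obtain ⟨i, rfl⟩ := (hB x).mp hx
        by_cases hi : i ∈ Z
        · rw [hgZ i hi]; exact Or.inl (haD i hi)
        · rw [hgN i hi]; exact Or.inr (hν i).1
    · by_cases h : x ∈ range g ∧ y ∈ range g
      · rcases hxy with hxy | hxy
        · exact absurd ⟨Finset.mem_union_right _ ((hB x).mpr h.1),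
            Finset.mem_union_right _ ((hB y).mpr h.2)⟩ hxy
        · obtain ⟨⟨i, rfl⟩, ⟨j, rfl⟩⟩ := h
          have hi := hgD i hxy.1
          have hj := hgD j hxy.2
          refine ⟨fun n => ?_, ?_⟩
          · rw [hf, hgZ _ (hv.cl n i hi j hj), hv.emb.mapf n i hi j hj, hgZ i hi, hgZ j hj]
          · rw [hr, hv.emb.mapr i hi j hj, hgZ i hi, hgZ j hj]
      · exact hout x y h
  refine ⟨S', D ∪ B, B, hext, ⟨?_, ?_, ?_⟩, ?_, g, hemb, ⟨B, Finset.mem_insert_self _ _,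
    fun i => (hB _).mpr (mem_range_self i)⟩, fun i hi => hgZ i hi⟩
  · intro P' hP'
    rcases Finset.mem_insert.mp hP' with rfl | hP'
    · exact Finset.subset_union_right
    · exact (hP.sub P' hP').trans Finset.subset_union_left
  · intro P' hP'
    rcases Finset.mem_insert.mp hP' with rfl | hP'
    · have := ((goodF_iff T).mp hv.good).push hemb
      rwa [show g '' univ = (B : Set Ω) by simp [B]] at this
    · exact (hP.good P' hP').agree (hext.agree.mono (by exact_mod_cast hP.sub P' hP'))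
  · intro X hX hcov
    by_cases h : X ⊆ D
    · obtain ⟨P', h1, h2⟩ := hP.conf X h (by
        intro x hx y hy
        obtain ⟨P', h1, h2, h3⟩ := hcov x hx y hy
        rcases Finset.mem_insert.mp h1 with rfl | h1
        · obtain ⟨i, rfl⟩ := (hB x).mp h2
          obtain ⟨j, rfl⟩ := (hB y).mp h3
          have hi := hgD i (h hx)
          have hj := hgD j (h hy)
          exact ⟨P, hPQ, by rw [hgZ i hi]; exact hv.maps hi, by rw [hgZ j hj]; exact hv.maps hj⟩
        · exact ⟨P', h1, h2, h3⟩)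
      exact ⟨P', Finset.mem_insert_of_mem h1, h2⟩
    · obtain ⟨x, hx, hxD⟩ := not_subset.mp h
      refine ⟨B, Finset.mem_insert_self _ _, fun y hy => ?_⟩
      obtain ⟨P', h1, h2, h3⟩ := hcov x hx y hy
      rcases Finset.mem_insert.mp h1 with rfl | h1
      · exact h3
      · exact absurd (hP.sub P' h1 h2) hxD
  · rw [Finset.card_image_of_injective _ hg]; simp

def SatFrom (j : ℕ) (S : Str Ω) (Q : Finset (Finset Ω)) : Prop :=
  ∀ P ∈ Q, ∀ k, j ≤ k → k < P.card → ∀ (T : FStr k) (Z : Set (Fin k)) (a : Fin k → Ω),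
    Val S P T Z a → Wit S Q T Z a

theorem sat_step {N : Set Ω} (hN : N.Infinite) {S : Str Ω} {D : Finset Ω}
    {Q : Finset (Finset Ω)} (hP : PS S D Q) {j : ℕ} (hs : SatFrom (j + 1) S Q) :
    ∃ S' D' Q', Ext N S D Q S' D' Q' ∧ PS S' D' Q' ∧ SatFrom j S' Q' := by
  classical
  have key : ∀ L : Finset (Q × FStr j × Set (Fin j) × (Fin j → D)),
      ∃ S' D' Q', Ext N S D Q S' D' Q' ∧ PS S' D' Q' ∧ (∀ P ∈ Q', P ∈ Q ∨ P.card = j) ∧
        ∀ c ∈ L, Val S c.1.1 c.2.1 c.2.2.1 (fun i => (c.2.2.2 i : Ω)) →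
          Wit S' Q' c.2.1 c.2.2.1 (fun i => (c.2.2.2 i : Ω)) := by
    intro L
    induction L using Finset.induction_on with
    | empty => exact ⟨S, D, Q, Ext.refl _ _ _ _, hP, fun P h => Or.inl h, by simp⟩
    | insert c L _ ih =>
      obtain ⟨S', D', Q', h1, h2, h3, h4⟩ := ih
      by_cases hv : Val S c.1.1 c.2.1 c.2.2.1 (fun i => (c.2.2.2 i : Ω))
      · obtain ⟨S'', D'', B, e1, e2, e3, e4⟩ := add_piece hN h2 (h1.subQ c.1.2)
          (hv.agree (h1.agree.mono (by exact_mod_cast hP.sub _ c.1.2)))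
        refine ⟨S'', D'', insert B Q', h1.trans e1, e2, fun P hP' => ?_, fun c' hc' hv' => ?_⟩
        · rcases Finset.mem_insert.mp hP' with rfl | hP'
          · exact Or.inr e3
          · exact h3 P hP'
        · rcases Finset.mem_insert.mp hc' with rfl | hc'
          · exact e4
          · exact (h4 c' hc' hv').ext h2 e1
      · refine ⟨S', D', Q', h1, h2, h3, fun c' hc' hv' => ?_⟩
        rcases Finset.mem_insert.mp hc' with rfl | hc'
        · exact absurd hv' hv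
        · exact h4 c' hc' hv'
  have : Fintype (Q × FStr j × Set (Fin j) × (Fin j → D)) := Fintype.ofFinite _
  obtain ⟨S', D', Q', h1, h2, h3, h4⟩ := key Finset.univ
  refine ⟨S', D', Q', h1, h2, fun P hPQ k hjk hk T Z a hv => ?_⟩
  rcases h3 P hPQ with hPQ0 | hcard
  · have hv0 : Val S P T Z a :=
      hv.agree (h1.agree.symm.mono (by exact_mod_cast hP.sub _ hPQ0))
    rcases Nat.eq_or_lt_of_le hjk with rfl | hlt
    · obtain ⟨p, hp⟩ := Finset.card_pos.mp (lt_of_le_of_lt (Nat.zero_le _) hk)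
      let a' : Fin j → D := fun i =>
        if h : i ∈ Z then ⟨a i, hP.sub P hPQ0 (hv0.maps h)⟩ else ⟨p, hP.sub P hPQ0 hp⟩
      have ha' : EqOn a (fun i => (a' i : Ω)) Z := fun i hi => by simp only [a', dif_pos hi]
      obtain ⟨g, g1, g2, g3⟩ := h4 (⟨P, hPQ0⟩, T, Z, a') (Finset.mem_univ _)
        ⟨hv0.good, hv0.cl, hv0.emb.congr hv0.cl ha', fun i hi => by
          have := hv0.maps hi
          rw [ha' hi] at this
          exact this⟩
      exact ⟨g, g1, g2, fun i hi => (g3 hi).trans (ha' hi).symm⟩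
    · exact (hs P hPQ0 k hlt hk T Z a hv0).ext hP h1
  · omega

theorem saturate {N : Set Ω} (hN : N.Infinite) (j : ℕ) : ∀ {S : Str Ω} {D : Finset Ω}
    {Q : Finset (Finset Ω)}, PS S D Q → SatFrom j S Q →
    ∃ S' D' Q', Ext N S D Q S' D' Q' ∧ PS S' D' Q' ∧ SatFrom 0 S' Q' := by
  induction j with
  | zero => intro S D Q hP hs; exact ⟨S, D, Q, Ext.refl _ _ _ _, hP, hs⟩
  | succ j ih =>
    intro S D Q hP hs
    obtain ⟨S', D', Q', h1, h2, h3⟩ := sat_step hN hP hs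
    obtain ⟨S'', D'', Q'', e1, e2, e3⟩ := ih h2 h3
    exact ⟨S'', D'', Q'', h1.trans e1, e2, e3⟩

theorem close {S : Str Ω} {D : Finset Ω} {Q : Finset (Finset Ω)} (hP : PS S D Q)
    (hs : SatFrom 0 S Q) :
    ∃ S' : Str Ω, KOn S' D ∧
      (∀ x y, (¬ (x ∈ D ∧ y ∈ D) ∨ ∃ P ∈ Q, x ∈ P ∧ y ∈ P) → AgP S S' x y) ∧ S'.r = S.r := by
  classical
  let S' : Str Ω :=
    ⟨fun n x y => if x ∈ D ∧ y ∈ D ∧ ¬ ∃ P ∈ Q, x ∈ P ∧ y ∈ P then
        (if h : n < D.card then (D.equivFin.symm ⟨n, h⟩ : Ω) else x) else S.f n x y, S.r⟩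
  have hag : ∀ x y, (¬ (x ∈ D ∧ y ∈ D) ∨ ∃ P ∈ Q, x ∈ P ∧ y ∈ P) → AgP S S' x y := by
    intro x y h
    have h' : ¬ (x ∈ D ∧ y ∈ D ∧ ¬ ∃ P ∈ Q, x ∈ P ∧ y ∈ P) := by
      rintro ⟨h1, h2, h3⟩
      rcases h with h | h
      · exact h ⟨h1, h2⟩
      · exact h3 h
    exact ⟨fun n => by simp only [S', if_neg h'], Iff.rfl⟩
  have hagP : ∀ P ∈ Q, Agree S S' P := fun P hPQ x hx y hy => hag x y (Or.inr ⟨P, hPQ, hx, hy⟩)
  have hcross : ∀ x ∈ D, ∀ y ∈ D, (¬ ∃ P ∈ Q, x ∈ P ∧ y ∈ P) → ∀ n,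
      S'.f n x y = if h : n < D.card then (D.equivFin.symm ⟨n, h⟩ : Ω) else x := by
    intro x hx y hy h n
    have h' : x ∈ D ∧ y ∈ D ∧ ¬ ∃ P ∈ Q, x ∈ P ∧ y ∈ P := ⟨hx, hy, h⟩
    simp only [S', if_pos h']
  have hdich : ∀ C : Finset Ω, C ⊆ D → Cl S' C → C = D ∨ ∃ P ∈ Q, C ⊆ P := by
    intro C hC hcl
    by_cases h : ∀ x ∈ (C : Set Ω), ∀ y ∈ (C : Set Ω), ∃ P ∈ Q, x ∈ P ∧ y ∈ P
    · obtain ⟨P, h1, h2⟩ := hP.conf C (by exact_mod_cast hC) h
      exact Or.inr ⟨P, h1, by exact_mod_cast h2⟩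
    · left
      push Not at h
      obtain ⟨x, hx, y, hy, hxy⟩ := h
      refine Finset.Subset.antisymm hC fun d hd => ?_
      have := hcl (D.equivFin ⟨d, hd⟩) x hx y hy
      rw [hcross x (hC hx) y (hC hy) (by
        rintro ⟨P, h1, h2, h3⟩
        exact hxy P h1 h2 h3), dif_pos (D.equivFin ⟨d, hd⟩).2] at this
      simpa using this
  have hcl : Cl S' D := by
    intro n x hx y hy
    by_cases h : ∃ P ∈ Q, x ∈ P ∧ y ∈ P
    · obtain ⟨P, h1, h2, h3⟩ := h
      exact hP.sub P h1 (((hP.good P h1).agree (hagP P h1)).cl n x h2 y h3)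
    · rw [hcross x hx y hy h n]
      split_ifs with hn
      · exact (D.equivFin.symm ⟨n, hn⟩).2
      · exact hx
  refine ⟨S', ⟨hcl, fun s hs => ⟨D, by exact_mod_cast hs, subset_refl _, hcl⟩,
    fun C hC hCcl => ?_⟩, hag, rfl⟩
  rcases hdich C (by exact_mod_cast hC) hCcl with rfl | ⟨P, h1, h2⟩
  · refine ⟨fun n hn x hx y hy => ?_, fun C₁ hC₁ hcl₁ k hk T hT Z hZ a ha hm => ?_⟩
    · by_cases h : ∃ P ∈ Q, x ∈ P ∧ y ∈ P
      · obtain ⟨P, h1, h2, h3⟩ := h
        have hK := (hP.good P h1).agree (hagP P h1)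
        exact (hK.loc P (subset_refl _) hK.cl).1 n
          ((Finset.card_le_card (hP.sub P h1)).trans hn) x h2 y h3
      · rw [hcross x hx y hy h n, dif_neg (not_lt.mpr hn)]
    · rcases hdich C₁ hC₁.subset hcl₁ with h | ⟨P, h1, h2⟩
      · exact absurd h hC₁.ne
      · have hm' : MapsTo a Z P := fun i hi => h2 (hm hi)
        obtain ⟨g, g1, ⟨P', g2, g3⟩, g4⟩ := hs P h1 k (Nat.zero_le _)
          (lt_of_lt_of_le hk (Finset.card_le_card h2)) T Z a
          ⟨hT, hZ, ha.agree hm' (hagP P h1).symm, hm'⟩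
        exact ⟨g, g1.agree (Y := P') (fun i _ => g3 i) (hagP P' g2),
          fun i => hP.sub P' g2 (g3 i), g4⟩
  · exact ((hP.good P h1).agree (hagP P h1)).loc C (by exact_mod_cast h2) hCcl

/-- amalgamation with a prescribed relation between the two sides -/
theorem amalg {N : Set Ω} (hN : N.Infinite) {S : Str Ω} {B C : Finset Ω} (hB : KOn S B)
    (hC : KOn S C) :
    ∃ (S' : Str Ω) (D : Finset Ω), B ⊆ D ∧ C ⊆ D ∧ (D : Set Ω) ⊆ B ∪ C ∪ N ∧ KOn S' D ∧
      (∀ x y, (¬ (x ∈ D ∧ y ∈ D) ∨ (x ∈ B ∧ y ∈ B) ∨ (x ∈ C ∧ y ∈ C)) → AgP S S' x y) ∧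
      (∀ x ∈ B, ∀ y ∈ C, (S.r x y ↔ S'.r x y)) := by
  classical
  have hP : PS S (B ∪ C) {B, C} := by
    refine ⟨?_, ?_, ?_⟩
    · intro P hP
      rcases Finset.mem_insert.mp hP with rfl | hP
      · exact Finset.subset_union_left
      · rw [Finset.mem_singleton.mp hP]; exact Finset.subset_union_right
    · intro P hP
      rcases Finset.mem_insert.mp hP with rfl | hP
      · exact hB
      · rw [Finset.mem_singleton.mp hP]; exact hC
    · intro X hX hcov
      by_cases h : X ⊆ B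
      · exact ⟨B, by simp, h⟩
      · obtain ⟨x, hx, hxB⟩ := not_subset.mp h
        refine ⟨C, by simp, fun y hy => ?_⟩
        obtain ⟨P, h1, h2, h3⟩ := hcov x hx y hy
        rcases Finset.mem_insert.mp h1 with rfl | h1
        · exact absurd h2 hxB
        · rw [Finset.mem_singleton.mp h1] at h3; exact h3
  obtain ⟨S₁, D, Q, h1, h2, h3⟩ := saturate hN (B ∪ C).card hP (by
    intro P hPQ k hk hk'
    have := Finset.card_le_card (hP.sub P hPQ)
    omega)
  obtain ⟨S', e1, e2, e3⟩ := close h2 h3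
  refine ⟨S', D, Finset.subset_union_left.trans h1.sub, Finset.subset_union_right.trans h1.sub,
    by simpa using h1.new, e1, fun x y hxy => ?_, fun x hx y hy => ?_⟩
  · rcases hxy with hxy | hxy | hxy
    · exact (h1.ag x y (Or.inl hxy)).trans (e2 x y (Or.inl hxy))
    · exact (h1.ag x y (Or.inr ⟨Finset.mem_union_left _ hxy.1, Finset.mem_union_left _ hxy.2⟩)).trans
        (e2 x y (Or.inr ⟨B, h1.subQ (by simp), hxy⟩))
    · exact (h1.ag x y
        (Or.inr ⟨Finset.mem_union_right _ hxy.1, Finset.mem_union_right _ hxy.2⟩)).trans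
        (e2 x y (Or.inr ⟨C, h1.subQ (by simp), hxy⟩))
  · rw [e3]
    exact (h1.ag x y (Or.inr ⟨Finset.mem_union_left _ hx, Finset.mem_union_right _ hy⟩)).2

end Pool.Agent.H944Z.UC
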