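import Mathlib
import Pool.Agent.H944Z.UC.Amalg

set_option autoImplicit false

namespace Pool.Agent.H944Z.UC

open Set

variable {Ω : Type}

theorem ext_step {S : Str Ω} {U : Set Ω} (hK : KOn S U) (hU : U.Countable) {N : Set Ω}
    (hN : N.Infinite) (hd : ∀ x ∈ N, x ∉ U) {b : Ω} (hb : b ∈ N) (val : Prop) {M₀ : Set Ω}
    (hM : M₀ ⊆ U) :
    ∃ (S' : Str Ω) (U' : Set Ω), U ⊆ U' ∧ U' ⊆ U ∪ N ∧ b ∈ U' ∧ KOn S' U' ∧ Agree S S' U ∧
      (val → ∀ u ∈ U, S'.r b u) ∧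
      (¬ val → M₀.Infinite → ∀ d ∈ U', d ∉ U → ∃ m ∈ M₀, ¬ S'.r d m) := by
  classical
  let Inv : Finset Ω × Str Ω → Prop := fun p =>
    (p.1 : Set Ω) ⊆ U ∪ N ∧ b ∈ p.1 ∧ KOn p.2 p.1 ∧ Agree S p.2 U ∧
      (val → ∀ u ∈ p.1, u ∈ U → p.2.r b u)
  have step : ∀ (x : Ω) (s : Subtype Inv), ∃ s' : Subtype Inv,
      s.1.1 ⊆ s'.1.1 ∧ Agree s.1.2 s'.1.2 s.1.1 ∧ (x ∈ U → x ∈ s'.1.1) ∧
      (¬ val → M₀.Infinite → ∀ d ∈ s.1.1, d ∉ U → ∃ m ∈ M₀, m ∈ s'.1.1 ∧ ¬ s'.1.2.r d m) := by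
    rintro x ⟨⟨B, T⟩, i1, i2, i3, i4, i5⟩
    simp only at i1 i2 i3 i4 i5
    obtain ⟨t₁, t11, t12⟩ : ∃ t : Finset Ω, (t : Set Ω) ⊆ U ∧ (x ∈ U → x ∈ t) := by
      by_cases hx : x ∈ U
      · exact ⟨{x}, by simpa using hx, fun _ => by simp⟩
      · exact ⟨∅, by simp, fun h => absurd h hx⟩
    obtain ⟨t₂, t21, t22⟩ : ∃ t : Finset Ω, (t : Set Ω) ⊆ U ∧
        (M₀.Infinite → ∃ m ∈ t, m ∈ M₀ ∧ m ∉ B) := by
      by_cases hx : M₀.Infinite
      · obtain ⟨m, hm1, hm2⟩ := hx.exists_notMem_finset B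
        exact ⟨{m}, by simpa using hM hm1, fun _ => ⟨m, by simp, hm1, hm2⟩⟩
      · exact ⟨∅, by simp, fun h => absurd h hx⟩
    obtain ⟨C, c1, c2, c3⟩ := hK.lf (B.filter (· ∈ U) ∪ t₁ ∪ t₂) (by
      rw [Finset.coe_union, Finset.coe_union]
      refine union_subset (union_subset ?_ t11) t21
      intro y hy
      exact (Finset.mem_filter.mp hy).2)
    have hBC : ∀ y ∈ B, y ∈ U → y ∈ C := fun y h1 h2 =>
      c1 (Finset.mem_union_left _ (Finset.mem_union_left _ (Finset.mem_filter.mpr ⟨h1, h2⟩)))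
    let T₁ : Str Ω := ⟨T.f, fun d c => if d ∈ B ∧ d ∉ U ∧ c ∈ C ∧ c ∉ B then val else T.r d c⟩
    have a1 : Agree T T₁ B := by
      intro x hx y hy
      refine ⟨fun _ => rfl, ?_⟩
      have : ¬ (x ∈ B ∧ x ∉ U ∧ y ∈ C ∧ y ∉ B) := fun h => h.2.2.2 hy
      simp only [T₁, if_neg this]
    have a2 : Agree T T₁ U := by
      intro x hx y hy
      refine ⟨fun _ => rfl, ?_⟩
      have : ¬ (x ∈ B ∧ x ∉ U ∧ y ∈ C ∧ y ∉ B) := fun h => h.2.1 hx
      simp only [T₁, if_neg this]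
    have hcross : ∀ d ∈ B, d ∉ U → ∀ c ∈ C, c ∉ B → (T₁.r d c ↔ val) := by
      intro d h1 h2 c h3 h4
      have : d ∈ B ∧ d ∉ U ∧ c ∈ C ∧ c ∉ B := ⟨h1, h2, h3, h4⟩
      simp only [T₁, if_pos this]
    obtain ⟨S', D, d1, d2, d3, d4, d5, d6⟩ := amalg hN (i3.agree a1)
      ((hK.mono c2 c3).agree ((i4.trans a2).mono c2))
    have hDU : ∀ y ∈ D, y ∈ U → y ∈ C := by
      intro y h1 h2
      rcases d3 h1 with (h | h) | h
      · exact hBC y h h2
      · exact h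
      · exact absurd h2 (hd y h)
    refine ⟨⟨(D, S'), ?_, d1 i2, d4, ?_, ?_⟩, d1, ?_, ?_, ?_⟩
    · exact d3.trans (union_subset (union_subset i1 (c2.trans subset_union_left))
        subset_union_right)
    · refine (i4.trans a2).trans fun x hx y hy => d5 x y ?_
      by_cases h : x ∈ D ∧ y ∈ D
      · exact Or.inr (Or.inr ⟨hDU x h.1 hx, hDU y h.2 hy⟩)
      · exact Or.inl h
    · intro hv u hu huU
      have huC := hDU u hu huU
      refine (d6 b i2 u huC).mp ?_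
      by_cases huB : u ∈ B
      · exact (a1 b i2 u huB).2.mp (i5 hv u huB huU)
      · exact (hcross b i2 (hd b hb) u huC huB).mpr hv
    · exact a1.trans fun x hx y hy => d5 x y (Or.inr (Or.inl ⟨hx, hy⟩))
    · intro hx
      exact d2 (c1 (Finset.mem_union_left _ (Finset.mem_union_right _ (t12 hx))))
    · intro hv hinf d hdB hdU
      obtain ⟨m, m1, m2, m3⟩ := t22 hinf
      have hmC : m ∈ C := c1 (Finset.mem_union_right _ m1)
      refine ⟨m, m2, d2 hmC, fun h => hv ?_⟩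
      exact (hcross d hdB hdU m hmC m3).mp ((d6 d hdB m hmC).mpr h)
  choose nxt hn1 hn2 hn3 hn4 using step
  have : Nonempty Ω := ⟨b⟩
  obtain ⟨u, hu⟩ := Set.countable_iff_exists_subset_range.mp hU
  let S₀ : Str Ω := ⟨fun n x y => if x = b ∧ y = b then b else S.f n x y, S.r⟩
  have hS₀ : ∀ n, S₀.f n b b = b := fun n => by simp [S₀]
  have hcl₀ : Cl S₀ (({b} : Finset Ω) : Set Ω) := by
    intro n x hx y hy
    rw [Finset.coe_singleton, mem_singleton_iff] at hx hy ⊢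
    rw [hx, hy, hS₀]
  have init : Inv ({b}, S₀) := by
    refine ⟨by simpa using Or.inr hb, by simp, ⟨hcl₀, fun s hs => ⟨{b}, by exact_mod_cast hs,
      subset_refl _, hcl₀⟩, fun C hC _ => ⟨fun n _ x hx y hy => ?_,
        fun C₁ hC₁ _ k hk => ?_⟩⟩, fun x hx y hy => ⟨fun n => ?_, Iff.rfl⟩, fun _ v hv hvU => ?_⟩
    · have h1 : x = b := by simpa using hC hx
      have h2 : y = b := by simpa using hC hy
      rw [h1, h2, hS₀]
    · have h1 := Finset.card_lt_card hC₁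
      have h2 : C.card ≤ 1 := by
        have := Finset.card_le_card (show C ⊆ {b} by exact_mod_cast hC)
        simpa using this
      omega
    · have : ¬ (x = b ∧ y = b) := fun h => hd b hb (h.1 ▸ hx)
      simp only [S₀, if_neg this]
    · have h1 : v = b := by simpa using hv
      exact absurd (h1 ▸ hvU) (hd b hb)
  let s : ℕ → Subtype Inv := fun i => Nat.rec ⟨_, init⟩ (fun i p => nxt (u i) p) i
  have hs : ∀ i, s (i + 1) = nxt (u i) (s i) := fun i => rfl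
  have hmono : ∀ i j, i ≤ j → ((s i).1.1 : Set Ω) ⊆ (s j).1.1 ∧ Agree (s i).1.2 (s j).1.2 (s i).1.1 := by
    intro i j hij
    induction j, hij using Nat.le_induction with
    | base => exact ⟨subset_refl _, Agree.refl _ _⟩
    | succ j _ ih =>
      rw [hs]
      exact ⟨ih.1.trans (by exact_mod_cast hn1 (u j) (s j)),
        ih.2.trans ((hn2 (u j) (s j)).mono ih.1)⟩
  obtain ⟨T, t1, t2⟩ := limit (fun i => ((s i).1.1 : Set Ω)) (fun i => (s i).1.2)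
    (fun i j => ⟨max i j, hmono i _ (le_max_left _ _), hmono j _ (le_max_right _ _)⟩)
    (fun i => (s i).2.2.2.1)
  have hmem : ∀ x ∈ U, ∃ i, ∀ j, i ≤ j → x ∈ (s j).1.1 := by
    intro x hx
    obtain ⟨i, rfl⟩ := hu hx
    exact ⟨i + 1, fun j hj => (hmono _ _ hj).1 (hn3 (u i) (s i) hx)⟩
  refine ⟨T, ⋃ i, ((s i).1.1 : Set Ω), fun x hx => ?_, iUnion_subset fun i => (s i).2.1,
    mem_iUnion.mpr ⟨0, (s 0).2.2.1⟩, t2, fun x hx y hy => ?_, fun hv x hx => ?_,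
    fun hv hinf d hd' hdU => ?_⟩
  · obtain ⟨i, hi⟩ := hmem x hx
    exact mem_iUnion.mpr ⟨i, hi i le_rfl⟩
  · obtain ⟨i, hi⟩ := hmem x hx
    obtain ⟨j, hj⟩ := hmem y hy
    exact AgP.trans ((s (max i j)).2.2.2.2.1 x hx y hy)
      (t1 (max i j) x (hi _ (le_max_left _ _)) y (hj _ (le_max_right _ _)))
  · obtain ⟨i, hi⟩ := hmem x hx
    exact (t1 i b (s i).2.2.1 x (hi i le_rfl)).2.mp ((s i).2.2.2.2.2 hv x (hi i le_rfl) hx)
  · obtain ⟨i, hi⟩ := mem_iUnion.mp hd'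
    obtain ⟨m, m1, m2, m3⟩ := hn4 (u i) (s i) hv hinf d hi hdU
    refine ⟨m, m1, fun h => m3 ?_⟩
    exact (t1 (i + 1) d (hn1 (u i) (s i) hi) m m2).2.mpr h

theorem long_chain {W : Type} [LinearOrder W] [WellFoundedLT W] (hW : ∀ β : W, (Iio β).Countable)
    (val : Prop) (s : ℕ → W) (hs : Function.Injective s) (β₀ : W) (hβ₀ : ∀ k, s k ≤ β₀) :
    ∃ (S : Str (W × ℕ)) (U : Set (W × ℕ)), KOn S U ∧ (∀ β, (β, 0) ∈ U) ∧
      ∀ d ∈ U, (val → d.2 = 0 → ∀ m ∈ U, m.1 < d.1 → S.r d m) ∧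
        (¬ val → β₀ < d.1 → ∃ k, ¬ S.r d (s k, 0)) := by
  classical
  let Inv : Set W × Set (W × ℕ) × Str (W × ℕ) → Prop := fun p =>
    (∀ β ∈ p.1, ∀ γ, γ < β → γ ∈ p.1) ∧ (∀ q ∈ p.2.1, q.1 ∈ p.1) ∧ (∀ β ∈ p.1, (β, 0) ∈ p.2.1) ∧
      KOn p.2.2 p.2.1 ∧
      ∀ d ∈ p.2.1, (val → d.2 = 0 → ∀ m ∈ p.2.1, m.1 < d.1 → p.2.2.r d m) ∧
        (¬ val → β₀ < d.1 → ∃ k, ¬ p.2.2.r d (s k, 0))
  let le : Subtype Inv → Subtype Inv → Prop := fun a b =>
    a.1.1 ⊆ b.1.1 ∧ a.1.2.1 ⊆ b.1.2.1 ∧ (∀ q ∈ b.1.2.1, q.1 ∈ a.1.1 → q ∈ a.1.2.1) ∧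
      Agree a.1.2.2 b.1.2.2 a.1.2.1
  have hrefl : ∀ a, le a a := fun a => ⟨subset_refl _, subset_refl _, fun _ h _ => h, Agree.refl _ _⟩
  have htrans : ∀ {a b c}, le a b → le b c → le a c := fun h1 h2 =>
    ⟨h1.1.trans h2.1, h1.2.1.trans h2.2.1,
      fun q hq hq' => h1.2.2.1 q (h2.2.2.1 q hq (h1.1 hq')) hq',
      h1.2.2.2.trans (h2.2.2.2.mono h1.2.1)⟩
  obtain ⟨m, hm⟩ := exists_maximal_of_chains_bounded (r := le) (by
    intro c hc
    rcases c.eq_empty_or_nonempty with rfl | hne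
    · let S₀ : Str (W × ℕ) := ⟨fun _ x _ => x, fun _ _ => True⟩
      have hK : KOn S₀ ∅ := by
        refine ⟨fun _ _ h => h.elim, fun s hs => ⟨∅, ?_, by simp, fun _ _ h => by simp at h⟩,
          fun C hC _ => ?_⟩
        · intro y hy
          exact (hs hy).elim
        · have : C = ∅ := by simpa using hC
          subst this
          exact ⟨fun _ _ _ h => by simp at h, fun C₁ h => absurd h (Finset.not_ssubset_empty _)⟩
      exact ⟨⟨(∅, ∅, S₀), by simp, by simp, by simp, hK, by simp⟩, by simp⟩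
    · have : Nonempty c := hne.to_subtype
      have htot : ∀ i j : c, le i.1 j.1 ∨ le j.1 i.1 := by
        intro i j
        by_cases h : i.1 = j.1
        · left; rw [h]; exact hrefl _
        · exact hc i.2 j.2 h
      obtain ⟨T, t1, t2⟩ := limit (fun i : c => i.1.1.2.1) (fun i : c => i.1.1.2.2)
        (fun i j => by
          rcases htot i j with h | h
          · exact ⟨j, ⟨h.2.1, h.2.2.2⟩, subset_refl _, Agree.refl _ _⟩
          · exact ⟨i, ⟨subset_refl _, Agree.refl _ _⟩, h.2.1, h.2.2.2⟩)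
        (fun i => i.1.2.2.2.2.1)
      have hlev : ∀ (i : c) (q : W × ℕ), q ∈ (⋃ i : c, i.1.1.2.1) → q.1 ∈ i.1.1.1 → q ∈ i.1.1.2.1 := by
        intro i q hq hq'
        obtain ⟨j, hj⟩ := mem_iUnion.mp hq
        rcases htot i j with h | h
        · exact h.2.2.1 q hj hq'
        · exact h.2.1 hj
      refine ⟨⟨(⋃ i : c, i.1.1.1, ⋃ i : c, i.1.1.2.1, T), ?_, ?_, ?_, t2, ?_⟩, fun a ha => ?_⟩
      · intro β hβ γ hγ
        obtain ⟨i, hi⟩ := mem_iUnion.mp hβ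
        exact mem_iUnion.mpr ⟨i, i.1.2.1 β hi γ hγ⟩
      · intro q hq
        obtain ⟨i, hi⟩ := mem_iUnion.mp hq
        exact mem_iUnion.mpr ⟨i, i.1.2.2.1 q hi⟩
      · intro β hβ
        obtain ⟨i, hi⟩ := mem_iUnion.mp hβ
        exact mem_iUnion.mpr ⟨i, i.1.2.2.2.1 β hi⟩
      · intro d hd
        obtain ⟨i, hi⟩ := mem_iUnion.mp hd
        obtain ⟨i1, i2, i3, -, i5⟩ := i.1.2
        refine ⟨fun hv h0 q hq hlt => ?_, fun hv hlt => ?_⟩
        · have hq' := hlev i q hq (i1 _ (i2 d hi) _ hlt)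
          exact (t1 i d hi q hq').2.mp ((i5 d hi).1 hv h0 q hq' hlt)
        · obtain ⟨k, hk⟩ := (i5 d hi).2 hv hlt
          refine ⟨k, fun h => hk ?_⟩
          exact (t1 i d hi _ (i3 _ (i1 _ (i2 d hi) _ (lt_of_le_of_lt (hβ₀ k) hlt)))).2.mpr h
      · exact ⟨subset_iUnion (fun i : c => i.1.1.1) ⟨a, ha⟩,
          subset_iUnion (fun i : c => i.1.1.2.1) ⟨a, ha⟩, hlev ⟨a, ha⟩, t1 ⟨a, ha⟩⟩) htrans
  obtain ⟨⟨I, U, S⟩, i1, i2, i3, i4, i5⟩ := m
  simp only at i1 i2 i3 i4 i5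
  by_cases hI : ∀ β, β ∈ I
  · exact ⟨S, U, i4, fun β => i3 β (hI β), i5⟩
  exfalso
  have hne : (Iᶜ).Nonempty := by
    push Not at hI
    exact hI
  let β := wellFounded_lt.min Iᶜ hne
  have hβ : β ∉ I := wellFounded_lt.min_mem Iᶜ hne
  have hlow : ∀ γ, γ < β → γ ∈ I := fun γ hγ => by
    by_contra h
    exact wellFounded_lt.not_lt_min Iᶜ h hγ
  have hIlt : ∀ γ ∈ I, γ < β := fun γ hγ => by
    by_contra h
    rcases eq_or_lt_of_le (not_lt.mp h) with h | h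
    · exact hβ (h ▸ hγ)
    · exact hβ (i1 γ hγ β h)
  have hUc : U.Countable :=
    Set.Countable.mono (fun q hq => mem_prod.mpr ⟨hIlt _ (i2 q hq), mem_univ _⟩)
      ((hW β).prod (countable_univ (α := ℕ)))
  have hN : {q : W × ℕ | q.1 = β}.Infinite :=
    infinite_of_injective_forall_mem (f := fun n : ℕ => (β, n))
      (fun a b h => (Prod.ext_iff.mp h).2) (fun _ => rfl)
  obtain ⟨S', U', e1, e2, e3, e4, e5, e6, e7⟩ := ext_step i4 hUc hN
    (fun q hq hqU => hβ (hq ▸ i2 q hqU)) (b := (β, 0)) rfl val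
    (M₀ := {q | q ∈ U ∧ ∃ k, q = (s k, 0)}) (fun q hq => hq.1)
  have hold : ∀ q ∈ U', q.1 ∈ I → q ∈ U := by
    intro q hq hq'
    rcases e2 hq with h | h
    · exact h
    · exact absurd (h ▸ hq') hβ
  have hinv : Inv (insert β I, U', S') := by
    refine ⟨?_, ?_, ?_, e4, ?_⟩
    · intro γ hγ δ hδ
      rcases hγ with rfl | hγ
      · exact Or.inr (hlow δ hδ)
      · exact Or.inr (i1 γ hγ δ hδ)
    · intro q hq
      rcases e2 hq with h | h
      · exact Or.inr (i2 q h)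
      · exact Or.inl h
    · intro γ hγ
      rcases hγ with rfl | hγ
      · exact e3
      · exact e1 (i3 γ hγ)
    · intro d hd
      rcases e2 hd with h | h
      · refine ⟨fun hv h0 q hq hlt => ?_, fun hv hlt => ?_⟩
        · have hq' := hold q hq (i1 _ (i2 d h) _ hlt)
          exact (e5 d h q hq').2.mp ((i5 d h).1 hv h0 q hq' hlt)
        · obtain ⟨k, hk⟩ := (i5 d h).2 hv hlt
          refine ⟨k, fun h' => hk ?_⟩
          exact (e5 d h _ (i3 _ (i1 _ (i2 d h) _ (lt_of_le_of_lt (hβ₀ k) hlt)))).2.mpr h'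
      · have hdβ : d.1 = β := h
        refine ⟨fun hv h0 q hq hlt => ?_, fun hv hlt => ?_⟩
        · have : d = (β, 0) := Prod.ext hdβ h0
          rw [this]
          exact e6 hv q (hold q hq (hlow _ (hdβ ▸ hlt)))
        · obtain ⟨q, ⟨-, k, rfl⟩, hq⟩ := e7 hv
            (infinite_of_injective_forall_mem (f := fun k : ℕ => (s k, 0))
              (fun a b h => hs (Prod.ext_iff.mp h).1)
              (fun k => ⟨i3 _ (hlow _ (lt_of_le_of_lt (hβ₀ k) (hdβ ▸ hlt))), k, rfl⟩))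
            d hd (fun hdU => hβ (hdβ ▸ i2 d hdU))
          exact ⟨k, hq⟩
  have := hm ⟨_, hinv⟩ ⟨subset_insert _ _, e1, hold, e5⟩
  exact hβ (this.1 (mem_insert β I))

end Pool.Agent.H944Z.UC
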